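import Mathlib

set_option autoImplicit false

/-!
A Banach space `X` (real or complex) with a norm dense linear subspace `A` such that the norm is
relatively `Ba(X, w)`-measurable on `A` but not `Ba(X, w)`-measurable on `X`.
-/

open Filter Topology Set MeasureTheory
open scoped ENNReal

namespace Pool.Agent.Results.MP_51339e_an.BaireNorm

universe u

/-! ### Definitions -/

section defs

variable (𝕜 : Type) [RCLike 𝕜] (X : Type) [NormedAddCommGroup X] [NormedSpace 𝕜 X]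

/-- the weak topology: the coarsest topology for which all `φ ∈ X*` are continuous -/
@[reducible] def weakTop : TopologicalSpace X :=
  TopologicalSpace.induced (fun (x : X) (φ : X →L[𝕜] 𝕜) => φ x) inferInstance

/-- the Baire `σ`-algebra of the weak topology: the smallest `σ`-algebra for which every weakly
continuous function `X → ℝ` is measurable -/
@[reducible] def baireWeak : MeasurableSpace X :=
  MeasurableSpace.generateFrom {B | ∃ (f : X → ℝ) (U : Set ℝ), Continuous[weakTop 𝕜 X, _] f ∧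
    IsOpen U ∧ B = f ⁻¹' U}

/-- `f` is `Ba(X, w)`-measurable -/
def BaireMeas (f : X → ℝ) : Prop :=
  ∀ U : Set ℝ, IsOpen U → MeasurableSet[baireWeak 𝕜 X] (f ⁻¹' U)

/-- `f` is relatively `Ba(X, w)`-measurable on `A`: the restriction of `f` to `A` is measurable for
the trace `σ`-algebra `{B ∩ A : B ∈ Ba(X, w)}`. -/
def RelBaireMeas (A : Set X) (f : X → ℝ) : Prop :=
  ∀ U : Set ℝ, IsOpen U → ∃ B : Set X, MeasurableSet[baireWeak 𝕜 X] B ∧ f ⁻¹' U ∩ A = B ∩ A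

end defs

/-! ### Sets in the Baire `σ`-algebra depend on countably many functionals -/

section gen

variable {𝕜 : Type} [RCLike 𝕜] {X : Type} [NormedAddCommGroup X] [NormedSpace 𝕜 X]

lemma det_of_continuous {f : X → ℝ} (hf : Continuous[weakTop 𝕜 X, _] f) :
    ∃ D : Set (X →L[𝕜] 𝕜), D.Countable ∧ ∀ x, (∀ φ ∈ D, φ x = 0) → f x = f 0 := by
  have h1 : ∀ n : ℕ, ∃ D : Set (X →L[𝕜] 𝕜), D.Finite ∧ ∀ x, (∀ φ ∈ D, φ x = 0) →
      dist (f x) (f 0) < 1 / ((n : ℝ) + 1) := by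
    intro n
    have h2 : f ⁻¹' Metric.ball (f 0) (1 / ((n : ℝ) + 1)) ∈ @nhds X (weakTop 𝕜 X) 0 := by
      have h3 := (@continuous_iff_continuousAt X ℝ (weakTop 𝕜 X) _ f).mp hf 0
      exact h3 (Metric.ball_mem_nhds _ (by positivity))
    rw [weakTop, nhds_induced, mem_comap] at h2
    obtain ⟨V, hV1, hV2⟩ := h2
    rw [nhds_pi, Filter.mem_pi] at hV1
    obtain ⟨I, hI, t, ht, htV⟩ := hV1
    refine ⟨I, hI, fun x hx => ?_⟩
    have h4 : (fun φ : X →L[𝕜] 𝕜 => φ x) ∈ V := by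
      refine htV fun φ hφ => ?_
      have h5 := mem_of_mem_nhds (ht φ)
      simp only at h5 ⊢
      rw [hx φ hφ]
      rwa [map_zero] at h5
    exact hV2 h4
  choose D hD1 hD2 using h1
  refine ⟨⋃ n, D n, countable_iUnion fun n => (hD1 n).countable, fun x hx => ?_⟩
  have h2 : ∀ n : ℕ, dist (f x) (f 0) < 1 / ((n : ℝ) + 1) := fun n =>
    hD2 n x fun φ hφ => hx φ (mem_iUnion.mpr ⟨n, hφ⟩)
  have h3 : dist (f x) (f 0) ≤ 0 :=
    ge_of_tendsto' tendsto_one_div_add_atTop_nhds_zero_nat fun n => (h2 n).le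
  exact dist_le_zero.mp h3

lemma det {B : Set X} (hB : MeasurableSet[baireWeak 𝕜 X] B) :
    ∃ D : Set (X →L[𝕜] 𝕜), D.Countable ∧ ∀ x, (∀ φ ∈ D, φ x = 0) → (x ∈ B ↔ (0 : X) ∈ B) := by
  unfold baireWeak at hB
  induction hB with
  | basic B hB =>
    obtain ⟨f, U, hf, -, rfl⟩ := hB
    obtain ⟨D, hD1, hD2⟩ := det_of_continuous hf
    exact ⟨D, hD1, fun x hx => by rw [mem_preimage, mem_preimage, hD2 x hx]⟩
  | empty => exact ⟨∅, countable_empty, fun x _ => by simp⟩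
  | compl B _ ih =>
    obtain ⟨D, hD1, hD2⟩ := ih
    exact ⟨D, hD1, fun x hx => by rw [mem_compl_iff, mem_compl_iff, hD2 x hx]⟩
  | iUnion B _ ih =>
    choose D hD1 hD2 using ih
    refine ⟨⋃ n, D n, countable_iUnion hD1, fun x hx => ?_⟩
    rw [mem_iUnion, mem_iUnion]
    exact exists_congr fun n => hD2 n x fun φ hφ => hx φ (mem_iUnion.mpr ⟨n, hφ⟩)

/-- If the norm is Baire measurable then countably many functionals separate the points. -/
lemma separate (h : BaireMeas 𝕜 X fun x => ‖x‖) :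
    ∃ D : Set (X →L[𝕜] 𝕜), D.Countable ∧ ∀ x, (∀ φ ∈ D, φ x = 0) → x = 0 := by
  obtain ⟨D, hD1, hD2⟩ := det (h {0}ᶜ isOpen_compl_singleton)
  refine ⟨D, hD1, fun x hx => ?_⟩
  have h1 := hD2 x hx
  by_contra hne
  have h2 : (0 : X) ∈ (fun x : X => ‖x‖) ⁻¹' {0}ᶜ := by
    rw [← h1]
    simpa using hne
  simp at h2

/-- A pointwise limit of weakly continuous functions on `A`. -/
lemma rel_of_tendsto {A : Set X} {f : X → ℝ} (g : ℕ → X → ℝ)
    (hg : ∀ n, Continuous[weakTop 𝕜 X, _] (g n))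
    (hlim : ∀ x ∈ A, Tendsto (fun n => g n x) atTop (𝓝 (f x))) : RelBaireMeas 𝕜 X A f := by
  intro U hU
  have h1 : Measurable[(baireWeak 𝕜 X).comap (Subtype.val : A → X)] fun x : A => f x := by
    refine @measurable_of_tendsto_metrizable A ℝ ((baireWeak 𝕜 X).comap (Subtype.val : A → X)) _ _
      _ _ (fun n (x : A) => g n x) _ (fun n => ?_) ?_
    · have h2 : Measurable[baireWeak 𝕜 X] (g n) := by
        refine @measurable_of_isOpen _ _ _ _ _ (baireWeak 𝕜 X) _ fun V hV => ?_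
        exact MeasurableSpace.measurableSet_generateFrom ⟨g n, V, hg n, hV, rfl⟩
      exact Measurable.comp h2 (comap_measurable _)
    · rw [tendsto_pi_nhds]
      exact fun x => hlim x.1 x.2
  obtain ⟨B, hB1, hB2⟩ := h1 hU.measurableSet
  refine ⟨B, hB1, ?_⟩
  ext x
  constructor
  · rintro ⟨hx1, hx2⟩
    have : (⟨x, hx2⟩ : A) ∈ Subtype.val ⁻¹' B := by
      rw [hB2]; exact hx1
    exact ⟨this, hx2⟩
  · rintro ⟨hx1, hx2⟩
    have : (⟨x, hx2⟩ : A) ∈ Subtype.val ⁻¹' B := hx1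
    rw [hB2] at this
    exact ⟨this, hx2⟩

lemma continuous_comp {G : ((X →L[𝕜] 𝕜) → 𝕜) → ℝ} (hG : Continuous G) :
    Continuous[weakTop 𝕜 X, _] fun x => G (fun φ => φ x) := by
  have h1 : Continuous[weakTop 𝕜 X, _] fun (x : X) (φ : X →L[𝕜] 𝕜) => φ x :=
    continuous_induced_dom
  exact @Continuous.comp X ((X →L[𝕜] 𝕜) → 𝕜) ℝ (weakTop 𝕜 X) _ _ (fun x φ => φ x) G hG h1

/-- A family of orthonormal type is annihilated by every functional up to countably many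
members. -/
lemma countable_nonzero {I : Type} (x : I → X)
    (hx : ∀ (F : Finset I) (θ : I → 𝕜), (∀ i, ‖θ i‖ ≤ 1) → ‖∑ i ∈ F, θ i • x i‖ ≤ √F.card)
    (φ : X →L[𝕜] 𝕜) : {i | φ (x i) ≠ 0}.Countable := by
  have h1 : {i | φ (x i) ≠ 0} ⊆ ⋃ n : ℕ, {i | 1 / ((n : ℝ) + 1) < ‖φ (x i)‖} := by
    intro i hi
    obtain ⟨n, hn⟩ := exists_nat_one_div_lt (norm_pos_iff.mpr hi)
    exact mem_iUnion.mpr ⟨n, hn⟩
  refine (countable_iUnion fun n => ?_).mono h1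
  refine Set.Finite.countable ?_
  by_contra hinf
  obtain ⟨m, hm⟩ := exists_nat_gt ((‖φ‖ * ((n : ℝ) + 1)) ^ 2)
  obtain ⟨F, hF1, hF2⟩ := Set.Infinite.exists_subset_card_eq hinf m
  set θ : I → 𝕜 := fun i => if φ (x i) = 0 then 0 else (starRingEnd 𝕜) (φ (x i)) / (‖φ (x i)‖ : 𝕜)
    with hθ
  have hθ1 : ∀ i, ‖θ i‖ ≤ 1 := by
    intro i
    simp only [hθ]
    split_ifs with h
    · simp
    · rw [norm_div, RCLike.norm_conj, RCLike.norm_ofReal, abs_norm,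
        div_self (norm_ne_zero_iff.mpr h)]
  have hθ2 : ∀ i, θ i * φ (x i) = (‖φ (x i)‖ : 𝕜) := by
    intro i
    simp only [hθ]
    split_ifs with h
    · rw [h]; simp
    · have h3 : (‖φ (x i)‖ : 𝕜) ≠ 0 := by
        rw [Ne, RCLike.ofReal_eq_zero]
        exact norm_ne_zero_iff.mpr h
      rw [div_mul_eq_mul_div, RCLike.conj_mul, div_eq_iff h3, sq]
  have h2 := hx F θ hθ1
  have h3 : φ (∑ i ∈ F, θ i • x i) = ((∑ i ∈ F, ‖φ (x i)‖ : ℝ) : 𝕜) := by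
    rw [map_sum, RCLike.ofReal_sum]
    refine Finset.sum_congr rfl fun i _ => ?_
    rw [map_smul, smul_eq_mul, hθ2]
  have h4 : (m : ℝ) * (1 / ((n : ℝ) + 1)) ≤ ∑ i ∈ F, ‖φ (x i)‖ := by
    rw [← hF2, ← nsmul_eq_mul]
    exact Finset.card_nsmul_le_sum F _ _ fun i hi => (hF1 hi).le
  have h5 : ∑ i ∈ F, ‖φ (x i)‖ ≤ ‖φ‖ * √m := by
    have h6 := φ.le_opNorm (∑ i ∈ F, θ i • x i)
    rw [h3, RCLike.norm_ofReal, abs_of_nonneg (Finset.sum_nonneg fun i _ => norm_nonneg _)] at h6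
    refine h6.trans (mul_le_mul_of_nonneg_left ?_ (norm_nonneg _))
    rw [hF2] at h2
    exact h2
  have hm0 : (0 : ℝ) < m := lt_of_le_of_lt (sq_nonneg _) hm
  have h6 : √(m : ℝ) * √(m : ℝ) = m := Real.mul_self_sqrt hm0.le
  have hn0 : (0 : ℝ) < (n : ℝ) + 1 := by positivity
  have h7 : (m : ℝ) ≤ ‖φ‖ * ((n : ℝ) + 1) * √m := by
    have h8 := h4.trans h5
    rw [mul_one_div, div_le_iff₀ hn0] at h8
    linarith
  have hs0 : 0 < √(m : ℝ) := Real.sqrt_pos.mpr hm0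
  have h8 : √(m : ℝ) ≤ ‖φ‖ * ((n : ℝ) + 1) := by
    have h9 : √(m : ℝ) * √(m : ℝ) ≤ ‖φ‖ * ((n : ℝ) + 1) * √m := by rw [h6]; exact h7
    exact le_of_mul_le_mul_right h9 hs0
  have h9 : (m : ℝ) ≤ (‖φ‖ * ((n : ℝ) + 1)) ^ 2 := by
    rw [← h6, ← sq]
    exact pow_le_pow_left₀ hs0.le h8 2
  linarith

end gen

/-! ### The space -/

section space

variable (𝕜 : Type) [RCLike 𝕜]

/-- `ℓ₂(2^ℕ)` -/
abbrev H1 : Type := lp (fun _ : Set ℕ => 𝕜) 2

/-- `ℓ₂` of a countable set -/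
abbrev H2 : Type := lp (fun _ : ℕ × Finset ℕ => 𝕜) 2

open Classical in
/-- unit vectors -/
noncomputable def e1 (i : Set ℕ) : H1 𝕜 := lp.single 2 i (1 : 𝕜)

/-- unit vectors -/
noncomputable def e2 (t : ℕ × Finset ℕ) : H2 𝕜 := lp.single 2 t (1 : 𝕜)

lemma norm_e2 (t : ℕ × Finset ℕ) : ‖e2 𝕜 t‖ = 1 := by
  unfold e2
  rw [lp.norm_single (by norm_num), norm_one]

lemma e2_apply (t s : ℕ × Finset ℕ) : e2 𝕜 t s = if t = s then 1 else 0 := by
  unfold e2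
  by_cases h : t = s
  · subst h; rw [lp.single_apply_self, if_pos rfl]
  · rw [lp.single_apply_ne _ _ _ (Ne.symm h), if_neg h]

lemma norm_sum_e1 (F : Finset (Set ℕ)) (c : Set ℕ → 𝕜) :
    ‖∑ i ∈ F, c i • e1 𝕜 i‖ ^ 2 = ∑ i ∈ F, ‖c i‖ ^ 2 := by
  classical
  have h1 := lp.norm_sum_single (p := 2) (E := fun _ : Set ℕ => 𝕜) (by norm_num) c F
  have h2 : ∑ i ∈ F, c i • e1 𝕜 i = ∑ i ∈ F, lp.single 2 i (c i) := by
    refine Finset.sum_congr rfl fun i _ => ?_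
    unfold e1
    rw [← lp.single_smul, smul_eq_mul, mul_one]
  simp only [ENNReal.toReal_ofNat, Real.rpow_ofNat] at h1
  rw [h2]
  exact h1

variable {𝕜}

open Classical in
/-- the first `k` digits of `i` -/
noncomputable def r (k : ℕ) (i : Set ℕ) : Finset ℕ := (Finset.range k).filter (· ∈ i)

open Classical in
lemma mem_r {k m : ℕ} {i : Set ℕ} : m ∈ r k i ↔ m < k ∧ m ∈ i := by
  unfold r
  rw [Finset.mem_filter, Finset.mem_range]

variable (𝕜)

/-- the weights -/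
noncomputable def w (k : ℕ) : 𝕜 := (1 / 2) ^ k

lemma norm_w (k : ℕ) : ‖w 𝕜 k‖ = (1 / 2) ^ k := by
  unfold w
  rw [norm_pow, norm_div, norm_one, RCLike.norm_ofNat]

lemma w_ne_zero (k : ℕ) : w 𝕜 k ≠ 0 := by
  rw [← norm_ne_zero_iff, norm_w]
  positivity

lemma summable_w : Summable fun k => ‖w 𝕜 k‖ := by
  simp only [norm_w]
  exact summable_geometric_of_lt_one (by norm_num) (by norm_num)

/-- the second component -/
noncomputable def d (i : Set ℕ) : H2 𝕜 := ∑' k, w 𝕜 k • e2 𝕜 (k, r k i)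

lemma norm_term (i : Set ℕ) (k : ℕ) : ‖w 𝕜 k • e2 𝕜 (k, r k i)‖ = ‖w 𝕜 k‖ := by
  rw [norm_smul, norm_e2, mul_one]

lemma summable_term (i : Set ℕ) : Summable fun k => w 𝕜 k • e2 𝕜 (k, r k i) := by
  refine Summable.of_norm ?_
  simp only [norm_term]
  exact summable_w 𝕜

lemma d_apply (i : Set ℕ) (k : ℕ) (S : Finset ℕ) :
    d 𝕜 i (k, S) = if r k i = S then w 𝕜 k else 0 := by
  have h1 : HasSum (fun k' => w 𝕜 k' • e2 𝕜 (k', r k' i)) (d 𝕜 i) := (summable_term 𝕜 i).hasSum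
  have h2 := (lp.evalCLM 𝕜 (fun _ : ℕ × Finset ℕ => 𝕜) 2 (k, S)).hasSum h1
  have h3 : HasSum (fun k' => if k' = k then (if r k i = S then w 𝕜 k else 0) else 0)
      (if r k i = S then w 𝕜 k else 0) := hasSum_ite_eq k _
  have h4 := h2.unique (h3.congr_fun fun k' => ?_)
  · exact h4
  · change w 𝕜 k' * e2 𝕜 (k', r k' i) (k, S) = _
    rw [e2_apply]
    by_cases hk : k' = k
    · subst hk
      by_cases hS : r k' i = S
      · rw [if_pos (by rw [hS]), if_pos rfl, if_pos hS, mul_one]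
      · rw [if_neg (by rw [Prod.mk.injEq]; exact fun h => hS h.2), if_pos rfl, if_neg hS, mul_zero]
    · rw [if_neg (by rw [Prod.mk.injEq]; exact fun h => hk h.1), if_neg hk, mul_zero]

lemma tendsto_d {i : Set ℕ} {j : ℕ → Set ℕ} (hj : ∀ k, ∀ᶠ n in atTop, r k (j n) = r k i) :
    Tendsto (fun n => d 𝕜 (j n)) atTop (𝓝 (d 𝕜 i)) := by
  unfold d
  refine tendsto_tsum_of_dominated_convergence (bound := fun k => ‖w 𝕜 k‖) (summable_w 𝕜)
    (fun k => ?_) (Eventually.of_forall fun n k => (norm_term 𝕜 (j n) k).le)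
  refine tendsto_const_nhds.congr' ?_
  filter_upwards [hj k] with n hn
  rw [hn]

/-- the vectors spanning the dense subspace -/
noncomputable def a (i : Set ℕ) : H1 𝕜 × H2 𝕜 := (e1 𝕜 i, d 𝕜 i)

/-- the dense subspace, as a subspace of `ℓ₂ × ℓ₂` -/
noncomputable def A₀ : Submodule 𝕜 (H1 𝕜 × H2 𝕜) := Submodule.span 𝕜 (range (a 𝕜))

/-- the Banach space -/
abbrev XX : Type := (A₀ 𝕜).topologicalClosure

/-- the dense subspace -/
noncomputable def A : Submodule 𝕜 (XX 𝕜) := (A₀ 𝕜).comap (A₀ 𝕜).topologicalClosure.subtype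

lemma dense_A : Dense (A 𝕜 : Set (XX 𝕜)) := by
  intro x
  rw [Metric.mem_closure_iff]
  intro ε hε
  have hx : (x : H1 𝕜 × H2 𝕜) ∈ closure (A₀ 𝕜 : Set (H1 𝕜 × H2 𝕜)) := by
    have := x.2
    rwa [← SetLike.mem_coe, Submodule.topologicalClosure_coe] at this
  obtain ⟨y, hy1, hy2⟩ := Metric.mem_closure_iff.mp hx ε hε
  exact ⟨⟨y, (A₀ 𝕜).le_topologicalClosure hy1⟩, hy1, hy2⟩

/-! ### The norm on the dense subspace -/

/-- the coordinate functionals -/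
noncomputable def co (t : ℕ × Finset ℕ) : XX 𝕜 →L[𝕜] 𝕜 :=
  (lp.evalCLM 𝕜 (fun _ : ℕ × Finset ℕ => 𝕜) 2 t).comp
    ((ContinuousLinearMap.snd 𝕜 (H1 𝕜) (H2 𝕜)).comp (A₀ 𝕜).topologicalClosure.subtypeL)

lemma co_apply (t : ℕ × Finset ℕ) (x : XX 𝕜) : co 𝕜 t x = x.1.2 t := rfl

/-- the approximating functions -/
noncomputable def G (k : ℕ) (p : (XX 𝕜 →L[𝕜] 𝕜) → 𝕜) : ℝ :=
  max (√(∑ S ∈ (Finset.range k).powerset, ‖p (co 𝕜 (k, S)) / w 𝕜 k‖ ^ 2))
    (√(∑ t ∈ Finset.range k ×ˢ (Finset.range k).powerset, ‖p (co 𝕜 t)‖ ^ 2))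

lemma continuous_G (k : ℕ) : Continuous (G 𝕜 k) := by
  unfold G
  fun_prop

lemma hasSum_sq2 (x : H2 𝕜) : HasSum (fun t => ‖x t‖ ^ 2) (‖x‖ ^ 2) := by
  have := lp.hasSum_norm (p := 2) (by norm_num) x
  simpa using this

lemma tendsto_second (y : H2 𝕜) : Tendsto (fun k : ℕ =>
    √(∑ t ∈ Finset.range k ×ˢ (Finset.range k).powerset, ‖y t‖ ^ 2)) atTop (𝓝 ‖y‖) := by
  have h1 : Tendsto (fun k : ℕ => Finset.range k ×ˢ (Finset.range k).powerset) atTop atTop := by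
    refine tendsto_atTop_finset_of_monotone ?_ ?_
    · intro k l hkl
      have h2 : Finset.range k ⊆ Finset.range l := Finset.range_mono hkl
      exact Finset.product_subset_product h2 (Finset.powerset_mono.mpr h2)
    · rintro ⟨n, S⟩
      obtain ⟨m, hm⟩ := S.exists_nat_subset_range
      refine ⟨max (n + 1) m, ?_⟩
      rw [Finset.mem_product, Finset.mem_range, Finset.mem_powerset]
      refine ⟨lt_of_lt_of_le (Nat.lt_succ_self n) (le_max_left _ _), ?_⟩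
      exact hm.trans (Finset.range_mono (le_max_right _ _))
  have h2 := (hasSum_sq2 𝕜 y).comp h1
  have h3 := (Real.continuous_sqrt.tendsto _).comp h2
  rw [Real.sqrt_sq (norm_nonneg _)] at h3
  exact h3

lemma r_injective (F : Finset (Set ℕ)) :
    ∀ᶠ k in atTop, ∀ i ∈ F, ∀ j ∈ F, r k i = r k j → i = j := by
  rw [Filter.eventually_all_finset]
  intro i _
  rw [Filter.eventually_all_finset]
  intro j _
  by_cases hij : i = j
  · exact Eventually.of_forall fun _ _ => hij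
  · obtain ⟨m, hm⟩ : ∃ m, ¬ (m ∈ i ↔ m ∈ j) := by
      by_contra hcon
      push Not at hcon
      exact hij (Set.ext hcon)
    filter_upwards [eventually_gt_atTop m] with k hk h
    exfalso
    refine hm ?_
    have h1 : m ∈ r k i ↔ m ∈ r k j := by rw [h]
    rw [mem_r, mem_r] at h1
    tauto

lemma eventually_first (F : Finset (Set ℕ)) (c : Set ℕ → 𝕜) :
    ∀ᶠ k in atTop, ∑ S ∈ (Finset.range k).powerset,
      ‖(∑ i ∈ F, c i * (if r k i = S then w 𝕜 k else 0)) / w 𝕜 k‖ ^ 2 = ∑ i ∈ F, ‖c i‖ ^ 2 := by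
  classical
  filter_upwards [r_injective F] with k hk
  have h1 : F.image (r k) ⊆ (Finset.range k).powerset := by
    intro S hS
    obtain ⟨i, -, rfl⟩ := Finset.mem_image.mp hS
    rw [Finset.mem_powerset]
    intro m hm
    exact Finset.mem_range.mpr (mem_r.mp hm).1
  rw [← Finset.sum_subset h1, Finset.sum_image fun i hi j hj h => hk i hi j hj h]
  · refine Finset.sum_congr rfl fun i hi => ?_
    have h2 : ∑ j ∈ F, c j * (if r k j = r k i then w 𝕜 k else 0) = c i * w 𝕜 k := by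
      rw [Finset.sum_eq_single i]
      · rw [if_pos rfl]
      · intro j hj hji
        rw [if_neg fun h => hji (hk j hj i hi h), mul_zero]
      · exact fun h => absurd hi h
    rw [h2, mul_div_assoc, div_self (w_ne_zero 𝕜 k), mul_one]
  · intro S _ hS
    have h2 : ∑ j ∈ F, c j * (if r k j = S then w 𝕜 k else 0) = 0 := by
      refine Finset.sum_eq_zero fun j hj => ?_
      rw [if_neg fun h => hS (Finset.mem_image.mpr ⟨j, hj, h⟩), mul_zero]
    rw [h2, zero_div, norm_zero]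
    norm_num

lemma tendsto_G (x : XX 𝕜) (hx : x ∈ A 𝕜) :
    Tendsto (fun k => G 𝕜 k (fun φ => φ x)) atTop (𝓝 ‖x‖) := by
  have hx' : (x : H1 𝕜 × H2 𝕜) ∈ A₀ 𝕜 := hx
  obtain ⟨c, hc⟩ := (Finsupp.mem_span_range_iff_exists_finsupp).mp hx'
  rw [Finsupp.sum] at hc
  have h1 : (x : H1 𝕜 × H2 𝕜).1 = ∑ i ∈ c.support, c i • e1 𝕜 i := by
    rw [← hc, Prod.fst_sum]
    rfl
  have h2 : ∀ t, (x : H1 𝕜 × H2 𝕜).2 t = ∑ i ∈ c.support, c i * d 𝕜 i t := by
    intro t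
    rw [← hc, Prod.snd_sum]
    have h3 : ∀ F : Finset (Set ℕ), (∑ i ∈ F, (c i • a 𝕜 i).2 : H2 𝕜) t =
        ∑ i ∈ F, c i * d 𝕜 i t := by
      intro F
      have h4 : (∑ i ∈ F, (c i • a 𝕜 i).2 : H2 𝕜) t =
          lp.evalCLM 𝕜 (fun _ : ℕ × Finset ℕ => 𝕜) 2 t (∑ i ∈ F, (c i • a 𝕜 i).2) := rfl
      rw [h4, map_sum]
      rfl
    exact h3 c.support
  have h3 : Tendsto (fun k : ℕ => √(∑ S ∈ (Finset.range k).powerset,
      ‖(x : H1 𝕜 × H2 𝕜).2 (k, S) / w 𝕜 k‖ ^ 2)) atTop (𝓝 ‖(x : H1 𝕜 × H2 𝕜).1‖) := by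
    refine tendsto_const_nhds.congr' ?_
    filter_upwards [eventually_first 𝕜 c.support c] with k hk
    simp only [h2, d_apply]
    rw [hk, ← norm_sum_e1, ← h1, Real.sqrt_sq (norm_nonneg _)]
  have h4 := tendsto_second 𝕜 (x : H1 𝕜 × H2 𝕜).2
  have h5 := h3.max h4
  have h6 : ‖x‖ = max ‖(x : H1 𝕜 × H2 𝕜).1‖ ‖(x : H1 𝕜 × H2 𝕜).2‖ := rfl
  rw [h6]
  exact h5

/-! ### The unit vectors in the closure -/

lemma flip_eventually (i : Set ℕ) (k : ℕ) :
    ∀ᶠ n in atTop, r k (symmDiff i {n}) = r k i := by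
  filter_upwards [eventually_ge_atTop k] with n hn
  ext m
  rw [mem_r, mem_r, Set.mem_symmDiff, mem_singleton_iff]
  constructor
  · rintro ⟨h1, h2⟩
    refine ⟨h1, ?_⟩
    rcases h2 with h2 | h2
    · exact h2.1
    · omega
  · rintro ⟨h1, h2⟩
    exact ⟨h1, Or.inl ⟨h2, by omega⟩⟩

lemma flip_injective (i : Set ℕ) : Function.Injective fun n : ℕ => symmDiff i {n} := by
  intro n m h
  simp only at h
  have h1 : ({n} : Set ℕ) = {m} := symmDiff_right_injective i h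
  exact Set.singleton_injective h1

lemma mem_closure (i : Set ℕ) : (e1 𝕜 i, (0 : H2 𝕜)) ∈ (A₀ 𝕜).topologicalClosure := by
  set j : ℕ → Set ℕ := fun n => symmDiff i {n} with hj
  set v : ℕ → H1 𝕜 × H2 𝕜 := fun m =>
    a 𝕜 i - ((m : ℝ)⁻¹ : ℝ) • ∑ n ∈ Finset.range m, a 𝕜 (j n) with hv
  have hvA : ∀ m, v m ∈ A₀ 𝕜 := by
    intro m
    refine Submodule.sub_mem _ (Submodule.subset_span ⟨i, rfl⟩) ?_
    rw [RCLike.real_smul_eq_coe_smul (K := 𝕜)]
    exact Submodule.smul_mem _ _ (Submodule.sum_mem _ fun n _ => Submodule.subset_span ⟨j n, rfl⟩)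
  have h1 : Tendsto (fun m : ℕ => ((m : ℝ)⁻¹ : ℝ) • ∑ n ∈ Finset.range m, d 𝕜 (j n)) atTop
      (𝓝 (d 𝕜 i)) := (tendsto_d 𝕜 (flip_eventually i)).cesaro_smul
  have h2 : Tendsto (fun m : ℕ => ((m : ℝ)⁻¹ : ℝ) • ∑ n ∈ Finset.range m, e1 𝕜 (j n)) atTop
      (𝓝 0) := by
    rw [tendsto_zero_iff_norm_tendsto_zero]
    have h3 : ∀ m : ℕ, ‖((m : ℝ)⁻¹ : ℝ) • ∑ n ∈ Finset.range m, e1 𝕜 (j n)‖ =
        (√(m : ℝ))⁻¹ := by
      intro m
      have h4 : ∑ n ∈ Finset.range m, e1 𝕜 (j n) =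
          ∑ s ∈ (Finset.range m).map ⟨j, flip_injective i⟩, (1 : 𝕜) • e1 𝕜 s := by
        rw [Finset.sum_map]
        simp
      have h5 : ‖∑ n ∈ Finset.range m, e1 𝕜 (j n)‖ ^ 2 = m := by
        rw [h4, norm_sum_e1]
        simp
      have h6 : ‖∑ n ∈ Finset.range m, e1 𝕜 (j n)‖ = √(m : ℝ) := by
        rw [← h5, Real.sqrt_sq (norm_nonneg _)]
      rw [norm_smul, h6, norm_inv, Real.norm_natCast]
      rcases Nat.eq_zero_or_pos m with h0 | h0
      · subst h0; simp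
      · have hm : (0 : ℝ) < m := by exact_mod_cast h0
        have h7 : (m : ℝ)⁻¹ = (√(m : ℝ))⁻¹ * (√(m : ℝ))⁻¹ := by
          rw [← mul_inv, Real.mul_self_sqrt hm.le]
        rw [h7, mul_assoc, inv_mul_cancel₀ (Real.sqrt_pos.mpr hm).ne', mul_one]
    simp only [h3]
    exact tendsto_inv_atTop_zero.comp (Real.tendsto_sqrt_atTop.comp tendsto_natCast_atTop_atTop)
  have h3 : Tendsto v atTop (𝓝 (e1 𝕜 i, (0 : H2 𝕜))) := by
    have h4 : Tendsto (fun m : ℕ => (e1 𝕜 i - ((m : ℝ)⁻¹ : ℝ) • ∑ n ∈ Finset.range m, e1 𝕜 (j n),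
        d 𝕜 i - ((m : ℝ)⁻¹ : ℝ) • ∑ n ∈ Finset.range m, d 𝕜 (j n))) atTop
        (𝓝 (e1 𝕜 i - 0, d 𝕜 i - d 𝕜 i)) :=
      (tendsto_const_nhds.sub h2).prodMk_nhds (tendsto_const_nhds.sub h1)
    rw [sub_zero, sub_self] at h4
    refine h4.congr fun m => ?_
    simp only [hv]
    refine Prod.ext ?_ ?_
    · rw [Prod.fst_sub, Prod.smul_fst, Prod.fst_sum]
      rfl
    · rw [Prod.snd_sub, Prod.smul_snd, Prod.snd_sum]
      rfl
  exact mem_closure_of_tendsto h3 (Eventually.of_forall hvA)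

/-- the unit vectors as elements of the space -/
noncomputable def xx (i : Set ℕ) : XX 𝕜 := ⟨(e1 𝕜 i, 0), mem_closure 𝕜 i⟩

lemma norm_sum_xx (F : Finset (Set ℕ)) (θ : Set ℕ → 𝕜) (hθ : ∀ i, ‖θ i‖ ≤ 1) :
    ‖∑ i ∈ F, θ i • xx 𝕜 i‖ ≤ √F.card := by
  have h1 : ((∑ i ∈ F, θ i • xx 𝕜 i : XX 𝕜) : H1 𝕜 × H2 𝕜) = (∑ i ∈ F, θ i • e1 𝕜 i, 0) := by
    rw [Submodule.coe_sum]
    refine Prod.ext ?_ ?_
    · rw [Prod.fst_sum]; rfl
    · rw [Prod.snd_sum]
      refine Finset.sum_eq_zero fun i _ => ?_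
      change θ i • (0 : H2 𝕜) = 0
      rw [smul_zero]
  have h2 : ‖∑ i ∈ F, θ i • xx 𝕜 i‖ = ‖∑ i ∈ F, θ i • e1 𝕜 i‖ := by
    change ‖((∑ i ∈ F, θ i • xx 𝕜 i : XX 𝕜) : H1 𝕜 × H2 𝕜)‖ = _
    rw [h1, Prod.norm_def, norm_zero, max_eq_left (norm_nonneg _)]
  rw [h2]
  refine Real.le_sqrt_of_sq_le ?_
  rw [norm_sum_e1]
  calc ∑ i ∈ F, ‖θ i‖ ^ 2 ≤ ∑ i ∈ F, (1 : ℝ) :=
        Finset.sum_le_sum fun i _ => pow_le_one₀ (norm_nonneg _) (hθ i)
    _ = F.card := by simp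

lemma e1_ne_zero (i : Set ℕ) : e1 𝕜 i ≠ 0 := by
  intro h
  have h1 := norm_sum_e1 𝕜 {i} (fun _ => 1)
  rw [Finset.sum_singleton, Finset.sum_singleton, h] at h1
  simp at h1

lemma not_measurable : ¬ BaireMeas 𝕜 (XX 𝕜) fun x => ‖x‖ := by
  intro h
  obtain ⟨D, hD1, hD2⟩ := separate h
  have h1 : (⋃ φ ∈ D, {i | φ (xx 𝕜 i) ≠ 0}).Countable :=
    hD1.biUnion fun φ _ => countable_nonzero (xx 𝕜) (norm_sum_xx 𝕜) φ
  obtain ⟨i, hi⟩ : ∃ i, i ∉ ⋃ φ ∈ D, {i | φ (xx 𝕜 i) ≠ 0} := by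
    by_contra hcon
    push Not at hcon
    rw [eq_univ_of_forall hcon, Set.countable_univ_iff] at h1
    obtain ⟨f, hf⟩ := exists_surjective_nat (Set ℕ)
    exact Function.cantor_surjective f hf
  have h2 : xx 𝕜 i = 0 := by
    refine hD2 _ fun φ hφ => ?_
    by_contra hne
    exact hi (mem_biUnion hφ hne)
  have h3 : e1 𝕜 i = 0 := by
    have := congrArg (fun x : XX 𝕜 => (x : H1 𝕜 × H2 𝕜).1) h2
    exact this
  exact e1_ne_zero 𝕜 i h3

end space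

/-- **Theorem.** Over the reals and over the complex numbers there is a Banach space `X` with a norm
dense linear subspace `A` such that the norm is relatively `Ba(X, w)`-measurable on `A` but not
`Ba(X, w)`-measurable on `X`. -/
theorem result (𝕜 : Type) [RCLike 𝕜] : ∃ (X : Type) (_ : NormedAddCommGroup X)
    (_ : NormedSpace 𝕜 X), CompleteSpace X ∧ ∃ A : Submodule 𝕜 X, Dense (A : Set X) ∧
      RelBaireMeas 𝕜 X A (fun x => ‖x‖) ∧ ¬ BaireMeas 𝕜 X (fun x => ‖x‖) := by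
  refine ⟨XX 𝕜, inferInstance, inferInstance, inferInstance, A 𝕜, dense_A 𝕜, ?_,
    not_measurable 𝕜⟩
  exact rel_of_tendsto (fun k x => G 𝕜 k (fun φ => φ x)) (fun k => continuous_comp (continuous_G 𝕜 k))
    (tendsto_G 𝕜)

end Pool.Agent.Results.MP_51339e_an.BaireNorm
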